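import Mathlib
import Pool.Agent.H617Z.TraceIneq
set_option autoImplicit false

/-! The multivariate trace inequality `L ≥ c R` holds with `c = 1`, for all `n` and `d`. -/

namespace Pool.Agent.Results.MP_ebd556_mp.AConstantOne

open Matrix
open scoped MatrixOrder ComplexOrder

/-- The trace norm `‖X‖₁ = Tr √(X* X)`. -/
noncomputable def traceNorm {d : ℕ} (X : Matrix (Fin d) (Fin d) ℂ) : ℝ :=
  (CFC.sqrt (Xᴴ * X)).trace.re

/-- `L(A₁, …, Aₙ) = Tr √(∑ Aⱼ²) - ∑ Tr Aⱼ`. -/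
noncomputable def L {n d : ℕ} (A : Fin n → Matrix (Fin d) (Fin d) ℂ) : ℝ :=
  (CFC.sqrt (∑ j, A j ^ 2)).trace.re - ∑ j, (A j).trace.re

/-- `R(A₁, …, Aₙ) = ∑_{j < k} (‖Aⱼ - Aₖ‖₁ - Tr (Aⱼ + Aₖ))`. -/
noncomputable def R {n d : ℕ} (A : Fin n → Matrix (Fin d) (Fin d) ℂ) : ℝ :=
  ∑ j, ∑ k with j < k, (traceNorm (A j - A k) - (A j + A k).trace.re)

theorem result (n d : ℕ) (A : Fin n → Matrix (Fin d) (Fin d) ℂ)
    (hA : ∀ j, (A j).PosSemidef) : L A ≥ 1 * R A := by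
  rw [one_mul]
  exact Pool.Agent.H617Z.TraceIneq.main n d A hA

end Pool.Agent.Results.MP_ebd556_mp.AConstantOne
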